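import Mathlib
import Pool.Agent.Y201.LI.Thm3

/-! # Every smooth hypersurface of degree `d ≥ 4`: degrees of families of lines and of maps which
are linear in a parameter are divisible by `d - 1` -/

set_option autoImplicit false

namespace Pool.Agent.Results.MP_ff26cb_ag.LinesOfHighContact

open MvPolynomial

/-- `F` is the equation of a smooth hypersurface of dimension `n` and degree `d`: a form of degree
`d` in `n + 2` variables whose partial derivatives have no common zero besides the origin -/
def SmoothForm {n : ℕ} (d : ℕ) (F : MvPolynomial (Fin (n + 2)) ℂ) : Prop :=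
  F.IsHomogeneous d ∧ ∀ z : Fin (n + 2) → ℂ, (∀ i, eval z (pderiv i F) = 0) → z = 0

/-- `x` is a generic point of the hypersurface `F = 0` with coordinates in `M` -/
def GenericPoint {n : ℕ} (F : MvPolynomial (Fin (n + 2)) ℂ) {M : Type} [Field M] [Algebra ℂ M]
    (x : Fin (n + 2) → M) : Prop :=
  aeval x F = 0 ∧
  ∀ (e : ℕ) (H : MvPolynomial (Fin (n + 2)) ℂ), H.IsHomogeneous e → aeval x H = 0 → F ∣ H

/-- the degree of `M` over the field generated over `ℂ` by the ratios of the coordinates of `x`
(the function field of the hypersurface if `x` is a generic point), zero if it is infinite -/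
noncomputable def degreeOver {n : ℕ} {M : Type} [Field M] [Algebra ℂ M] (x : Fin (n + 2) → M) :
    ℕ :=
  Module.finrank (IntermediateField.adjoin ℂ {z : M | ∃ i j, z = x i / x j}) M

/-- Let `X` be any smooth hypersurface of degree `d ≥ 4` (of any dimension), `x` a generic point of
`X` with coordinates in `M` and `δ` the degree of `M` over the function field of `X`.
(1) If the polar hypersurface `∑ x_i (∂F/∂X_i)(y) = 0` of `x` contains a parametrized rational curve
`y(s)` of degree `c` over `M`, then `d - 1` divides `c δ`.
(2) If some line over `M` through `x` meets `X` at `x` with multiplicity at least `d` (for instance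
if it lies in `X`), then `d - 1` divides `δ`.
(3) If `x = t u + w` with `u`, `w` over a subfield `L` and `t` transcendental over `L`, then
`d - 1` divides `δ`. In particular (4) no birational map from affine space to `X` is given by
polynomials which have degree at most one in one of the parameters. -/
theorem result :
    ∀ (n d : ℕ), 4 ≤ d → ∀ F : MvPolynomial (Fin (n + 2)) ℂ, SmoothForm d F →
      (∀ (M : Type) [Field M] [Algebra ℂ M] (x : Fin (n + 2) → M), GenericPoint F x →
        (∀ (c : ℕ) (y : Fin (n + 2) → Polynomial M), (∀ j, (y j).natDegree ≤ c) →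
          (∃ j, (y j).coeff c ≠ 0) → (∀ g : Polynomial M, Irreducible g → ∃ j, ¬ g ∣ y j) →
          ∑ i, Polynomial.C (x i) * aeval y (pderiv i F) = 0 → d - 1 ∣ c * degreeOver x) ∧
        (∀ u : Fin (n + 2) → M, LinearIndependent M ![x, u] → ∀ c : M,
          aeval (fun j => Polynomial.C (x j) + Polynomial.X * Polynomial.C (u j)) F =
            Polynomial.C c * Polynomial.X ^ d → d - 1 ∣ degreeOver x) ∧
        (∀ (L : IntermediateField ℂ M) (t : M), Transcendental L t →
          ∀ u w : Fin (n + 2) → L, x = (fun i => t * (u i : M) + (w i : M)) →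
            d - 1 ∣ degreeOver x)) ∧
      ∀ (G : Fin (n + 2) → MvPolynomial (Fin n) ℂ) (j : Fin n),
        GenericPoint F (fun i => algebraMap (MvPolynomial (Fin n) ℂ)
          (FractionRing (MvPolynomial (Fin n) ℂ)) (G i)) →
        (∀ i, (G i).degreeOf j ≤ 1) →
        d - 1 ∣ degreeOver (fun i => algebraMap (MvPolynomial (Fin n) ℂ)
          (FractionRing (MvPolynomial (Fin n) ℂ)) (G i)) := by
  rintro n d hd F ⟨hF, hsm⟩
  refine ⟨?_, ?_⟩
  · rintro M _ _ x ⟨hx, hgen⟩
    refine ⟨?_, ?_, ?_⟩
    · intro c y hyc hyt hprim hpol
      exact Pool.Agent.Y201.LI.curve_polar hF (by omega) hsm x hx hgen c y hyc hyt hprim hpol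
    · intro u hu c h
      exact Pool.Agent.Y201.LI.contact hF (by omega) hsm x hx hgen u hu c h
    · intro L t ht u w hxt
      subst hxt
      exact Pool.Agent.Y201.LI.linear_param hF (by omega) hsm L t ht
        (fun i => (u i : M)) (fun i => (w i : M)) (fun i => (u i).2) (fun i => (w i).2) hx hgen
  · rintro G j ⟨hx, hgen⟩ hj
    let al : MvPolynomial (Fin n) ℂ →ₐ[ℂ] FractionRing (MvPolynomial (Fin n) ℂ) :=
      IsScalarTower.toAlgHom ℂ _ _
    have hal : Function.Injective al :=
      IsFractionRing.injective (MvPolynomial (Fin n) ℂ) (FractionRing (MvPolynomial (Fin n) ℂ))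
    have hay : ∀ H : MvPolynomial (Fin (n + 2)) ℂ, aeval (fun i => al (G i)) H =
        al (aeval G H) := by
      intro H
      have : (aeval (fun i => al (G i)) : MvPolynomial (Fin (n + 2)) ℂ →ₐ[ℂ] _) =
          al.comp (aeval G) := by
        apply algHom_ext
        intro i
        rw [aeval_X, AlgHom.comp_apply, aeval_X]
      rw [this, AlgHom.comp_apply]
    refine Pool.Agent.Y201.LI.linear_map hF (by omega) hsm G ?_ ?_ j hj
    · apply hal
      rw [map_zero, ← hay]
      exact hx
    · intro e H hH h
      refine hgen e H hH ?_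
      change aeval (fun i => al (G i)) H = 0
      rw [hay, h, map_zero]

end Pool.Agent.Results.MP_ff26cb_ag.LinesOfHighContact
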